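import Pool.Agent.H770.GS.UQ

/-! # Project UQ of helper770: integration over the rotation (UQ8) -/

set_option autoImplicit false

open MeasureTheory Set intervalIntegral Filter Topology

namespace Pool.Agent.H494.UQ

open Pool.Agent.H770.GS Pool.Agent.Helper82.GC

theorem anti {g k : ℝ → ℝ} (hg : ∀ x, HasDerivAt g (-k x) x) (hk : ∀ v, 0 ≤ v → 0 ≤ k v)
    {x y : ℝ} (h0 : 0 ≤ x) (hxy : x ≤ y) : g y ≤ g x := by
  have h := antitoneOn_of_deriv_nonpos (convex_Icc x y)
    (fun z _ => (hg z).continuousAt.continuousWithinAt)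
    (fun z _ => (hg z).differentiableAt.differentiableWithinAt) (fun z hz => by
      rw [interior_Icc] at hz
      rw [(hg z).deriv]
      have := hk z (by linarith [hz.1])
      linarith)
  exact h (left_mem_Icc.2 hxy) (right_mem_Icc.2 hxy) hxy

theorem JJ_cont (r S : ℝ) {d : ℝ → ℝ} (hd : Continuous d) :
    Continuous (fun θ => JJ r d (S * Real.cos θ) (S * Real.sin θ)) := by
  have hW := W_cont
  unfold JJ
  refine intervalIntegral.continuous_parametric_intervalIntegral_of_continuous' ?_ _ _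
  have e2 : (Function.uncurry fun θ x => ∫ y in (-r)..r, W x * (W y *
        (d (S * Real.cos θ * x + S * Real.sin θ * y) *
        (S * Real.cos θ * y - S * Real.sin θ * x)))) = fun p : ℝ × ℝ =>
        ∫ y in (-r)..r, W p.2 * (W y *
        (d (S * Real.cos p.1 * p.2 + S * Real.sin p.1 * y) *
        (S * Real.cos p.1 * y - S * Real.sin p.1 * p.2))) := by
    funext p
    rfl
  rw [e2]
  refine intervalIntegral.continuous_parametric_intervalIntegral_of_continuous' ?_ _ _
  fun_prop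

theorem gainx : S_gainx := by
  intro h4 hJJ r a b hr hb hab
  have ha0 : 0 < a := lt_of_le_of_lt hb hab
  have ha : 0 ≤ a := ha0.le
  have hπ0 := Real.pi_pos
  obtain ⟨S, hS⟩ : ∃ S, S = Real.sqrt (a ^ 2 + b ^ 2) := ⟨_, rfl⟩
  have hS0 : 0 < S := by rw [hS]; positivity
  have hS2 : S ^ 2 = a ^ 2 + b ^ 2 := by rw [hS]; exact Real.sq_sqrt (by positivity)
  have haS : a / S ≤ 1 := by
    rw [div_le_one hS0]
    nlinarith
  obtain ⟨θ₁, hθ₁⟩ : ∃ θ, θ = Real.arccos (a / S) := ⟨_, rfl⟩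
  have hcos : Real.cos θ₁ = a / S := by
    rw [hθ₁]
    exact Real.cos_arccos (by have := div_nonneg ha hS0.le; linarith) haS
  have hsin : Real.sin θ₁ = b / S := by
    rw [hθ₁, Real.sin_arccos]
    rw [show 1 - (a / S) ^ 2 = (b / S) ^ 2 by
      rw [div_pow, div_pow, hS2]
      field_simp
      ring]
    exact Real.sqrt_sq (div_nonneg hb hS0.le)
  have hθ0 : 0 ≤ θ₁ := by
    rw [hθ₁]
    exact Real.arccos_nonneg _
  have hθπ : θ₁ < Real.pi / 4 := by
    have h4 : Real.pi / 4 = Real.arccos (Real.sqrt 2 / 2) := by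
      rw [← Real.cos_pi_div_four, Real.arccos_cos]
      · linarith
      · linarith
    have h2 : Real.sqrt 2 ^ 2 = 2 := Real.sq_sqrt (by norm_num)
    have h3 : 0 ≤ Real.sqrt 2 := Real.sqrt_nonneg 2
    have h6 : Real.sqrt 2 / 2 < a / S := by
      rw [lt_div_iff₀ hS0]
      have h5 : (Real.sqrt 2 / 2 * S) ^ 2 < a ^ 2 := by
        rw [mul_pow, div_pow, h2, hS2]
        nlinarith
      exact lt_of_pow_lt_pow_left₀ 2 ha h5
    rw [h4, hθ₁]
    refine Real.arccos_lt_arccos ?_ h6 haS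
    linarith
  obtain ⟨θa, hθa⟩ : ∃ θ, θ = θ₁ + (Real.pi / 4 - θ₁) / 3 := ⟨_, rfl⟩
  obtain ⟨θb, hθb⟩ : ∃ θ, θ = θ₁ + 2 * (Real.pi / 4 - θ₁) / 3 := ⟨_, rfl⟩
  have o1 : θ₁ < θa := by linarith
  have o2 : θa < θb := by linarith
  have o3 : θb < Real.pi / 4 := by linarith
  have hsa : 0 < Real.sin θa := Real.sin_pos_of_pos_of_lt_pi (by linarith) (by linarith)
  have hcb : 0 < Real.cos (2 * θb) := Real.cos_pos_of_mem_Ioo ⟨by linarith, by linarith⟩
  obtain ⟨v₂, hv₂⟩ : ∃ v, v = min (S * Real.cos (2 * θb) * r / 2) (S * Real.sin θa * r) := ⟨_, rfl⟩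
  have hv₂0 : 0 < v₂ := by
    rw [hv₂]
    exact lt_min (by positivity) (by positivity)
  have hv1 : v₂ ≤ S * Real.cos (2 * θb) * r / 2 := by
    rw [hv₂]
    exact min_le_left _ _
  have hv2 : v₂ ≤ S * Real.sin θa * r := by
    rw [hv₂]
    exact min_le_right _ _
  refine ⟨v₂, hv₂0, fun δ hδ hδv => ?_⟩
  have hWr := W_pos r
  refine ⟨(θb - θa) * (W r ^ 2 * (Real.sin θa * r) * (δ / (2 * S)) * (3 * δ ^ 2 / 8)), ?_, ?_⟩
  · have : 0 < θb - θa := by linarith
    positivity
  intro ρ ζ g k rest hρ hζ hk hrest hg hev hk0 hid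
  have hgd : 0 ≤ g δ - g v₂ := by
    have := anti hg hk0 hδ.le hδv.le
    linarith
  have hmono : ∀ θ, θ₁ ≤ θ → θ ≤ Real.pi / 4 → b * r ≤ S * Real.sin θ * r := by
    intro θ t1 t2
    have h1 : Real.sin θ₁ ≤ Real.sin θ :=
      Real.sin_le_sin_of_le_of_le_pi_div_two (by linarith) (by linarith) t1
    rw [hsin, div_le_iff₀ hS0] at h1
    have h2 : b ≤ S * Real.sin θ := by linarith
    exact mul_le_mul_of_nonneg_right h2 hr.le
  -- the three parts
  have p1 := rot_mono hk hg hev hr hS0.le hθ0 o1.le (by linarith : θa ≤ Real.pi / 4)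
    (hρ.trans (hmono θ₁ le_rfl (by linarith)))
  have p3 := rot_mono hk hg hev hr hS0.le (by linarith : 0 ≤ θb) o3.le le_rfl
    (hρ.trans (hmono θb (by linarith) (by linarith)))
  have p2 := rot_ftc hg hk.cont.neg r S θa θb
  have hJ : ∀ θ ∈ Icc θa θb, W r ^ 2 * (Real.sin θa * r) * (δ / (2 * S)) * (3 * δ ^ 2 / 8) / ζ *
      (g δ - g v₂) ≤ JJ r (fun x => -k x) (S * Real.cos θ) (S * Real.sin θ) := by
    intro θ hθ
    have t1 := hθ.1
    have t2 := hθ.2
    have s1 : Real.sin θa ≤ Real.sin θ :=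
      Real.sin_le_sin_of_le_of_le_pi_div_two (by linarith) (by linarith) t1
    have s0 : 0 < Real.sin θ := by linarith
    have c0 : 0 < Real.cos θ := Real.cos_pos_of_mem_Ioo ⟨by linarith, by linarith⟩
    have c1 : Real.cos θ ≤ 1 := Real.cos_le_one θ
    have sc : Real.sin θ < Real.cos θ := by
      rw [← Real.sin_pi_div_two_sub]
      exact Real.sin_lt_sin_of_lt_of_le_pi_div_two (by linarith) (by linarith) (by linarith)
    have hB0 : 0 < S * Real.sin θ := by positivity
    have hA0 : 0 < S * Real.cos θ := by positivity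
    have hBA : S * Real.sin θ < S * Real.cos θ := mul_lt_mul_of_pos_left sc hS0
    have c2 : Real.cos (2 * θb) ≤ Real.cos (2 * θ) :=
      Real.cos_le_cos_of_nonneg_of_le_pi (by linarith) (by linarith) (by linarith)
    have hfrac : S * Real.cos (2 * θb) * r ≤
        ((S * Real.cos θ) ^ 2 - (S * Real.sin θ) ^ 2) * r / (S * Real.cos θ) := by
      rw [le_div_iff₀ hA0]
      have e1 : (S * Real.cos θ) ^ 2 - (S * Real.sin θ) ^ 2 = S ^ 2 * Real.cos (2 * θ) := by
        rw [Real.cos_two_mul', mul_pow, mul_pow]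
        ring
      rw [e1]
      have h1 : Real.cos (2 * θb) * Real.cos θ ≤ Real.cos (2 * θ) * 1 :=
        mul_le_mul c2 c1 c0.le (by linarith)
      have h2 : S * Real.cos (2 * θb) * r * (S * Real.cos θ) =
          (S ^ 2 * r) * (Real.cos (2 * θb) * Real.cos θ) := by ring
      have h3 : S ^ 2 * Real.cos (2 * θ) * r = (S ^ 2 * r) * (Real.cos (2 * θ) * 1) := by ring
      rw [h2, h3]
      exact mul_le_mul_of_nonneg_left h1 (by positivity)
    have hrB : ρ ≤ S * Real.sin θ * r := hρ.trans (hmono θ (by linarith) (by linarith))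
    have hvB : v₂ ≤ S * Real.sin θ * r := by
      refine hv2.trans ?_
      refine mul_le_mul_of_nonneg_right (mul_le_mul_of_nonneg_left s1 hS0.le) hr.le
    have hmain := hJJ h4 ρ ζ g k rest hζ hk hrest hg hev hk0 hid r (S * Real.cos θ)
      (S * Real.sin θ) δ v₂ hr hB0 hBA hrB hδ hδv.le (by linarith) hvB
    refine le_trans ?_ hmain
    refine mul_le_mul_of_nonneg_right ?_ hgd
    refine div_le_div_of_nonneg_right ?_ hζ.le
    refine mul_le_mul_of_nonneg_right ?_ (by positivity)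
    have q1 : Real.sin θa * r ≤ S * Real.sin θ * r / (S * Real.cos θ) := by
      rw [le_div_iff₀ hA0]
      have h1 : Real.sin θa * Real.cos θ ≤ Real.sin θ * 1 := mul_le_mul s1 c1 c0.le s0.le
      have h2 : Real.sin θa * r * (S * Real.cos θ) = (S * r) * (Real.sin θa * Real.cos θ) := by
        ring
      have h3 : S * Real.sin θ * r = (S * r) * (Real.sin θ * 1) := by ring
      rw [h2, h3]
      exact mul_le_mul_of_nonneg_left h1 (by positivity)
    have q2 : δ / (2 * S) ≤ δ / (2 * (S * Real.cos θ)) := by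
      refine div_le_div_of_nonneg_left hδ.le (by positivity) ?_
      nlinarith
    refine mul_le_mul (mul_le_mul_of_nonneg_left q1 (by positivity)) q2 (by positivity) ?_
    positivity
  have hint : (θb - θa) * (W r ^ 2 * (Real.sin θa * r) * (δ / (2 * S)) * (3 * δ ^ 2 / 8) / ζ *
      (g δ - g v₂)) ≤ ∫ θ in θa..θb, JJ r (fun x => -k x) (S * Real.cos θ) (S * Real.sin θ) := by
    have h1 : (θb - θa) * (W r ^ 2 * (Real.sin θa * r) * (δ / (2 * S)) * (3 * δ ^ 2 / 8) / ζ *
        (g δ - g v₂)) = ∫ _θ in θa..θb, (W r ^ 2 * (Real.sin θa * r) * (δ / (2 * S)) *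
        (3 * δ ^ 2 / 8) / ζ * (g δ - g v₂)) := by
      rw [intervalIntegral.integral_const, smul_eq_mul]
    rw [h1]
    refine intervalIntegral.integral_mono_on o2.le ?_ ?_ hJ
    · exact intervalIntegrable_const
    · exact (JJ_cont r S hk.cont.neg).intervalIntegrable _ _
  rw [← p2] at hint
  have e1 : S * Real.cos θ₁ = a := by
    rw [hcos, mul_div_cancel₀ _ hS0.ne']
  have e2 : S * Real.sin θ₁ = b := by
    rw [hsin, mul_div_cancel₀ _ hS0.ne']
  have e3 : S * (Real.sqrt 2 / 2) = qm a b := by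
    unfold qm
    rw [← hS2]
    symm
    rw [Real.sqrt_eq_iff_mul_self_eq (by positivity) (by positivity)]
    have h2 : Real.sqrt 2 ^ 2 = 2 := Real.sq_sqrt (by norm_num)
    nlinarith
  rw [e1, e2] at p1
  rw [Real.cos_pi_div_four, Real.sin_pi_div_four, e3] at p3
  have e4 : (θb - θa) * (W r ^ 2 * (Real.sin θa * r) * (δ / (2 * S)) * (3 * δ ^ 2 / 8)) / ζ *
      (g δ - g v₂) = (θb - θa) * (W r ^ 2 * (Real.sin θa * r) * (δ / (2 * S)) *
      (3 * δ ^ 2 / 8) / ζ * (g δ - g v₂)) := by ring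
  rw [e4]
  linarith

end Pool.Agent.H494.UQ
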